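import Pool.Agent.H91.BalPair

set_option autoImplicit false

open H91.BalPair in
theorem Pool.Agent.Results.MP_7b40b5_an.Q1False.result :
    ∃ (σ : Fin 3 → List (Fin 3)) (u v : ℕ → Fin 3), Cex σ u v ∧ (inc σ).det = -1 ∧ u 0 = v 0 :=
  main.2
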